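import Pool.Agent.H28.MCB.Targets
import Pool.Agent.H36.MCL.AVG

/-!
AVB: the average over the windows
-/

set_option autoImplicit false

open Finset Filter Topology

namespace Pool.Agent.H55.MCB

open Pool.Agent.H28.MCL Pool.Agent.H28.MCB

theorem avb : T_AVB := by
  classical
  intro b δ q n₀ N T hb hq hqT hTN hB
  have hqR : (0 : ℝ) < q := by exact_mod_cast hq
  have hT0 : 0 < T := lt_of_lt_of_le hq hqT
  have hTR : (0 : ℝ) < T := by exact_mod_cast hT0
  have hqTR : (q : ℝ) ≤ T := by exact_mod_cast hqT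
  have hsh : ∀ n, ∑ s ∈ Finset.Icc 1 T, b (n + s) = ∑ z ∈ Finset.Ioc n (n + T), b z := by
    intro n
    have e : Finset.Ioc n (n + T) = (Finset.Icc 1 T).map (addLeftEmbedding n) := by
      ext z
      simp only [Finset.mem_Ioc, Finset.mem_map, Finset.mem_Icc, addLeftEmbedding_apply]
      constructor
      · intro h
        exact ⟨z - n, by omega, by omega⟩
      · rintro ⟨s, h1, h2⟩
        omega
    rw [e, Finset.sum_map]
    rfl
  have hsub : ∀ n ∈ iv N N q n₀, Finset.Ioc n (n + T) ⊆ Finset.Icc 1 (2 * N) := by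
    intro n hn z hz
    unfold iv at hn
    rw [Finset.mem_filter, Finset.mem_Ioc] at hn
    rw [Finset.mem_Ioc] at hz
    rw [Finset.mem_Icc]
    omega
  unfold av
  rw [← Finset.mul_sum]
  have h1 : ∑ n ∈ iv N N q n₀, ∑ s ∈ Finset.Icc 1 T, b (n + s) ≤
      ∑ z ∈ Finset.Icc 1 (2 * N), b z * ((T : ℝ) / q + 1) := by
    have h2 : ∀ n ∈ iv N N q n₀, ∑ s ∈ Finset.Icc 1 T, b (n + s) =
        ∑ z ∈ Finset.Icc 1 (2 * N), if n < z ∧ z ≤ n + T then b z else 0 := by
      intro n hn
      rw [hsh n, ← Finset.sum_filter]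
      refine Finset.sum_congr ?_ fun _ _ => rfl
      ext z
      rw [Finset.mem_filter]
      constructor
      · intro hz
        exact ⟨hsub n hn hz, Finset.mem_Ioc.1 hz⟩
      · rintro ⟨-, hz⟩
        exact Finset.mem_Ioc.2 hz
    rw [Finset.sum_congr rfl h2, Finset.sum_comm]
    refine Finset.sum_le_sum fun z _ => ?_
    rw [← Finset.sum_filter, Finset.sum_const, nsmul_eq_mul, mul_comm]
    refine mul_le_mul_of_nonneg_left ?_ (hb z)
    have h3 : (iv N N q n₀).filter (fun n => n < z ∧ z ≤ n + T) ⊆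
        (Finset.Ico (z - T) (z - T + T)).filter (fun n => n ≡ n₀ [MOD q]) := by
      intro n hn
      unfold iv at hn
      rw [Finset.mem_filter, Finset.mem_filter] at hn
      rw [Finset.mem_filter, Finset.mem_Ico]
      exact ⟨by omega, hn.1.2⟩
    have h4 := Pool.Agent.H36.MCL.avg_cnt (z - T) (z - T + T) q n₀ hq (by omega)
    have h5 : (((iv N N q n₀).filter (fun n => n < z ∧ z ≤ n + T)).card : ℝ) ≤
        (((Finset.Ico (z - T) (z - T + T)).filter (fun n => n ≡ n₀ [MOD q])).card : ℝ) := by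
      exact_mod_cast Finset.card_le_card h3
    refine h5.trans (h4.trans ?_)
    push_cast
    apply le_of_eq
    ring
  rw [← Finset.sum_mul] at h1
  have h6 : (T : ℝ) / q + 1 ≤ 2 * T / q := by
    rw [div_add_one hqR.ne', div_le_div_iff_of_pos_right hqR]
    linarith
  have h0 : 0 ≤ ∑ z ∈ Finset.Icc 1 (2 * N), b z := Finset.sum_nonneg fun z _ => hb z
  have h7 : (∑ z ∈ Finset.Icc 1 (2 * N), b z) * ((T : ℝ) / q + 1) ≤
      (2 * δ * N) * (2 * T / q) :=
    mul_le_mul hB h6 (by positivity) (h0.trans hB)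
  calc 1 / (T : ℝ) * ∑ n ∈ iv N N q n₀, ∑ s ∈ Finset.Icc 1 T, b (n + s)
      ≤ 1 / (T : ℝ) * ((2 * δ * N) * (2 * T / q)) :=
        mul_le_mul_of_nonneg_left (h1.trans h7) (by positivity)
    _ = 4 * δ * N / q := by
        field_simp
        ring

end Pool.Agent.H55.MCB
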